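import Pool.Agent.AFJ.Stmts

/-!
# The smooth part of the noise and the triple sum, with the square of the `ℓ¹` norm

NBL: `NbsStmt` with `(∑ |φ|)²` instead of `qf S φ`. LTL: `LatStmt` with `S0 (∑ |u|)²`, and with a form
bound only for functions on a part `R'` of the running set (outside of `R'` the entries from `b` are
tiny).
-/

set_option autoImplicit false

open scoped BigOperators Matrix

noncomputable section

namespace Pool.Agent.AFJ.H67

open Pool.Agent.LE.QF Pool.Agent.AFJ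

variable {X : Type} [Fintype X] [DecidableEq X]

/-- NBL -/
theorem nbl (hB : BetStmt) (G : Matrix X X ℂ) (κ : X → ℝ) (A b : Finset X) (f : X → ℝ)
    (κv r : ℝ) (hN : Net G κ) (hκv : 0 < κv) (hr : 0 ≤ r)
    (hκb : ∀ c ∈ b, κv ≤ κ c) (hrho : ∀ c ∈ b, rho G κ A c ≤ r) :
    ∑ c ∈ b, (∑ x ∈ A, |(Ec G κ A c *ᵥ f) x|) ^ 2 ≤ 8 * r / κv * qf (EE G κ A) f := by
  obtain ⟨h1, h2, -, -, h5, h6⟩ := hB X G κ A f hN
  have key1 : ∀ c ∈ b, (∑ x ∈ A, |(Ec G κ A c *ᵥ f) x|) ^ 2 ≤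
      4 * (r * ∑ x ∈ A, κ x * ‖bet G κ A f x c‖ ^ 2) := by
    intro c hc
    have a1 : ∑ x ∈ A, |(Ec G κ A c *ᵥ f) x| ≤
        2 * ∑ x ∈ A, (Real.sqrt (κ x) * ‖G x c‖) * (Real.sqrt (κ x) * ‖bet G κ A f x c‖) := by
      rw [Finset.mul_sum]
      refine Finset.sum_le_sum fun x hx => ?_
      rw [h1 c x hx, abs_neg, abs_mul, abs_mul, abs_two, abs_of_pos (hN.hκ x)]
      have b1 : |(G x c * bet G κ A f x c).re| ≤ ‖G x c‖ * ‖bet G κ A f x c‖ := by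
        rw [← norm_mul]; exact Complex.abs_re_le_norm _
      have b2 : Real.sqrt (κ x) * Real.sqrt (κ x) = κ x := Real.mul_self_sqrt (hN.hκ x).le
      calc 2 * κ x * |(G x c * bet G κ A f x c).re|
          ≤ 2 * κ x * (‖G x c‖ * ‖bet G κ A f x c‖) :=
            mul_le_mul_of_nonneg_left b1 (mul_nonneg zero_le_two (hN.hκ x).le)
        _ = 2 * (Real.sqrt (κ x) * Real.sqrt (κ x) * (‖G x c‖ * ‖bet G κ A f x c‖)) := by
            rw [b2]; ring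
        _ = _ := by ring
    have a0 : 0 ≤ ∑ x ∈ A, |(Ec G κ A c *ᵥ f) x| := Finset.sum_nonneg fun x _ => abs_nonneg _
    have a2 := Finset.sum_mul_sq_le_sq_mul_sq A (fun x => Real.sqrt (κ x) * ‖G x c‖)
      (fun x => Real.sqrt (κ x) * ‖bet G κ A f x c‖)
    have a3 : ∑ x ∈ A, (Real.sqrt (κ x) * ‖G x c‖) ^ 2 = rho G κ A c := by
      rw [rho]
      refine Finset.sum_congr rfl fun x _ => ?_
      rw [mul_pow, Real.sq_sqrt (hN.hκ x).le, KK, hN.hs c x]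
    have a4 : ∑ x ∈ A, (Real.sqrt (κ x) * ‖bet G κ A f x c‖) ^ 2 =
        ∑ x ∈ A, κ x * ‖bet G κ A f x c‖ ^ 2 :=
      Finset.sum_congr rfl fun x _ => by rw [mul_pow, Real.sq_sqrt (hN.hκ x).le]
    rw [a3, a4] at a2
    have a5 : 0 ≤ ∑ x ∈ A, κ x * ‖bet G κ A f x c‖ ^ 2 :=
      Finset.sum_nonneg fun x _ => mul_nonneg (hN.hκ x).le (sq_nonneg _)
    calc (∑ x ∈ A, |(Ec G κ A c *ᵥ f) x|) ^ 2
        ≤ (2 * ∑ x ∈ A, (Real.sqrt (κ x) * ‖G x c‖) *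
            (Real.sqrt (κ x) * ‖bet G κ A f x c‖)) ^ 2 := pow_le_pow_left₀ a0 a1 2
      _ = 4 * (∑ x ∈ A, (Real.sqrt (κ x) * ‖G x c‖) *
            (Real.sqrt (κ x) * ‖bet G κ A f x c‖)) ^ 2 := by ring
      _ ≤ 4 * (rho G κ A c * ∑ x ∈ A, κ x * ‖bet G κ A f x c‖ ^ 2) :=
          mul_le_mul_of_nonneg_left a2 (by norm_num)
      _ ≤ _ := mul_le_mul_of_nonneg_left
          (mul_le_mul_of_nonneg_right (hrho c hc) a5) (by norm_num)
  have key2 : ∑ c ∈ b, ∑ x ∈ A, κ x * ‖bet G κ A f x c‖ ^ 2 ≤ 2 / κv * qf (EE G κ A) f := by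
    rw [Finset.sum_comm, h6]
    have c1 : ∀ x ∈ A, ∑ c ∈ b, κ x * ‖bet G κ A f x c‖ ^ 2 ≤ κ x * (DD G κ A f x / κv) := by
      intro x _
      rw [← Finset.mul_sum]
      refine mul_le_mul_of_nonneg_left ?_ (hN.hκ x).le
      rw [le_div_iff₀ hκv, Finset.sum_mul]
      refine (Finset.sum_le_sum fun c hc => ?_).trans (h5 x b)
      rw [mul_comm]
      exact mul_le_mul_of_nonneg_right (hκb c hc) (sq_nonneg _)
    refine (Finset.sum_le_sum c1).trans (le_of_eq ?_)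
    rw [← mul_assoc, Finset.mul_sum]
    refine Finset.sum_congr rfl fun x _ => ?_
    ring
  refine (Finset.sum_le_sum key1).trans ?_
  rw [← Finset.mul_sum, ← Finset.mul_sum]
  calc 4 * (r * ∑ c ∈ b, ∑ x ∈ A, κ x * ‖bet G κ A f x c‖ ^ 2)
      ≤ 4 * (r * (2 / κv * qf (EE G κ A) f)) :=
        mul_le_mul_of_nonneg_left (mul_le_mul_of_nonneg_left key2 hr) (by norm_num)
    _ = _ := by ring

/-- the smooth part for a form which is bounded by the square of the `ℓ¹` norm and by the weighted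
square sum -/
theorem nbx (hB : BetStmt) (hW : NbwStmt) (G : Matrix X X ℂ) (κ : X → ℝ) (A b : Finset X)
    (f : X → ℝ) (N : (X → ℝ) → ℝ) (κv Λ r p S0 : ℝ) (hN : Net G κ) (hκv : 0 < κv) (hΛ : 0 ≤ Λ)
    (hr : 0 ≤ r) (hp : 0 ≤ p) (hS0 : 0 ≤ S0)
    (hκb : ∀ c ∈ b, κv ≤ κ c) (hrho : ∀ c ∈ b, rho G κ A c ≤ r)
    (hLa : ∀ x ∈ A, ∑ c ∈ b, KK G x c ^ 2 ≤ Λ)
    (hNf : ∀ φ : X → ℝ, (∀ x, x ∉ A → φ x = 0) →
      N φ ≤ p * ∑ x ∈ A, φ x ^ 2 / κ x + S0 * (∑ x ∈ A, |φ x|) ^ 2) :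
    ∑ c ∈ b, N (Ec G κ A c *ᵥ f) ≤
      (p * (8 * Real.sqrt (r * Λ / κv)) + S0 * (8 * r / κv)) * qf (EE G κ A) f := by
  have h1 := hW hB X G κ A b f κv Λ r hN hκv hΛ hr hκb hrho hLa
  have h2 := nbl hB G κ A b f κv r hN hκv hr hκb hrho
  obtain ⟨-, h3, -, -, -, -⟩ := hB X G κ A f hN
  calc ∑ c ∈ b, N (Ec G κ A c *ᵥ f)
      ≤ ∑ c ∈ b, (p * ∑ x ∈ A, (Ec G κ A c *ᵥ f) x ^ 2 / κ x +
          S0 * (∑ x ∈ A, |(Ec G κ A c *ᵥ f) x|) ^ 2) :=
        Finset.sum_le_sum fun c _ => hNf _ (h3 c)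
    _ = p * (∑ c ∈ b, ∑ x ∈ A, (Ec G κ A c *ᵥ f) x ^ 2 / κ x) +
          S0 * ∑ c ∈ b, (∑ x ∈ A, |(Ec G κ A c *ᵥ f) x|) ^ 2 := by
        rw [Finset.sum_add_distrib, Finset.mul_sum, Finset.mul_sum]
    _ ≤ p * (8 * Real.sqrt (r * Λ / κv) * qf (EE G κ A) f) +
          S0 * (8 * r / κv * qf (EE G κ A) f) :=
        add_le_add (mul_le_mul_of_nonneg_left h1 hp) (mul_le_mul_of_nonneg_left h2 hS0)
    _ = _ := by ring

/-- LTL -/
theorem ltl (G : Matrix X X ℂ) (κ : X → ℝ) (b R R' : Finset X) (x : X) (κR a r S0 τ : ℝ)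
    (hN : Net G κ) (hbR : b ⊆ R') (hRR : R' ⊆ R) (hκR : 0 < κR) (ha : 0 ≤ a) (hS0 : 0 ≤ S0)
    (hτ : 0 ≤ τ) (hκ : ∀ c ∈ R, κR ≤ κ c) (hr : (∑ c ∈ R, κ c * KK G x c) ≤ r)
    (hK : ∀ u : X → ℝ, (∀ y, y ∉ R' → u y = 0) →
      qf (KK G) u ≤ a * ∑ y, u y ^ 2 + S0 * (∑ y, |u y|) ^ 2)
    (hf : ∀ y ∈ R, y ∉ R' → ∀ c ∈ b, KK G c y ≤ τ) :
    ∑ y ∈ R, ∑ c ∈ b, KK G x y * KK G x c * KK G c y ≤
      a * LaR G R x + (S0 + τ) * (r / κR) ^ 2 := by
  have hK0 : ∀ x y, 0 ≤ KK G x y := fun x y => sq_nonneg _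
  have hsum : ∑ y ∈ R, KK G x y ≤ r / κR := by
    rw [le_div_iff₀ hκR, Finset.sum_mul]
    refine (Finset.sum_le_sum fun y hy => ?_).trans hr
    rw [mul_comm]
    exact mul_le_mul_of_nonneg_right (hκ y hy) (hK0 _ _)
  have hs0 : 0 ≤ ∑ y ∈ R, KK G x y := Finset.sum_nonneg fun y _ => hK0 _ _
  have hsum' : ∑ y ∈ R', KK G x y ≤ r / κR :=
    (Finset.sum_le_sum_of_subset_of_nonneg hRR fun y _ _ => hK0 _ _).trans hsum
  have hs0' : 0 ≤ ∑ y ∈ R', KK G x y := Finset.sum_nonneg fun y _ => hK0 _ _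
  have hsumb : ∑ c ∈ b, KK G x c ≤ r / κR :=
    (Finset.sum_le_sum_of_subset_of_nonneg (hbR.trans hRR) fun y _ _ => hK0 _ _).trans hsum
  have hsb0 : 0 ≤ ∑ c ∈ b, KK G x c := Finset.sum_nonneg fun y _ => hK0 _ _
  -- the near part
  set u : X → ℝ := fun y => if y ∈ R' then KK G x y else 0 with hu
  have hu0 : ∀ y, 0 ≤ u y := fun y => by
    simp only [hu]
    split_ifs
    · exact hK0 _ _
    · exact le_rfl
  have e1 : ∑ y, u y ^ 2 = ∑ y ∈ R', KK G x y ^ 2 := by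
    rw [← Finset.sum_subset (Finset.subset_univ R')]
    · exact Finset.sum_congr rfl fun y hy => by simp only [hu, if_pos hy]
    · intro y _ hy
      simp only [hu, if_neg hy]
      norm_num
  have e2 : ∑ y, |u y| = ∑ y ∈ R', KK G x y := by
    rw [← Finset.sum_subset (Finset.subset_univ R')]
    · exact Finset.sum_congr rfl fun y hy => by simp only [hu, if_pos hy, abs_of_nonneg (hK0 x y)]
    · intro y _ hy
      simp only [hu, if_neg hy, abs_zero]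
  have e3 : ∑ y ∈ R', ∑ c ∈ b, KK G x y * KK G x c * KK G c y ≤ qf (KK G) u := by
    have f1 : qf (KK G) u = ∑ y ∈ R', ∑ c ∈ R', KK G x y * KK G x c * KK G c y := by
      rw [qf, ← Finset.sum_subset (Finset.subset_univ R')]
      · refine Finset.sum_congr rfl fun y hy => ?_
        simp only [Matrix.mulVec, dotProduct]
        rw [← Finset.sum_subset (Finset.subset_univ R'), Finset.mul_sum]
        · refine Finset.sum_congr rfl fun c hc => ?_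
          simp only [hu, if_pos hy, if_pos hc]
          have : KK G c y = KK G y c := by simp only [KK]; rw [hN.hs c y]
          rw [this]
          ring
        · intro c _ hc
          simp only [hu, if_neg hc, mul_zero]
      · intro y _ hy
        simp only [hu, if_neg hy, zero_mul]
    rw [f1]
    refine Finset.sum_le_sum fun y _ => ?_
    exact Finset.sum_le_sum_of_subset_of_nonneg hbR fun c _ _ =>
      mul_nonneg (mul_nonneg (hK0 _ _) (hK0 _ _)) (hK0 _ _)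
  have e4 := hK u fun y hy => by simp only [hu, if_neg hy]
  rw [e1, e2] at e4
  have e5 : ∑ y ∈ R', KK G x y ^ 2 ≤ LaR G R x :=
    Finset.sum_le_sum_of_subset_of_nonneg hRR fun y _ _ => sq_nonneg _
  have near : ∑ y ∈ R', ∑ c ∈ b, KK G x y * KK G x c * KK G c y ≤
      a * LaR G R x + S0 * (r / κR) ^ 2 := by
    refine e3.trans (e4.trans (add_le_add (mul_le_mul_of_nonneg_left e5 ha) ?_))
    exact mul_le_mul_of_nonneg_left (pow_le_pow_left₀ hs0' hsum' 2) hS0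
  -- the far part
  have far : ∑ y ∈ R \ R', ∑ c ∈ b, KK G x y * KK G x c * KK G c y ≤ τ * (r / κR) ^ 2 := by
    have g1 : ∀ y ∈ R \ R', ∑ c ∈ b, KK G x y * KK G x c * KK G c y ≤
        KK G x y * (τ * ∑ c ∈ b, KK G x c) := by
      intro y hy
      rw [Finset.mem_sdiff] at hy
      rw [Finset.mul_sum, Finset.mul_sum]
      refine Finset.sum_le_sum fun c hc => ?_
      have := hf y hy.1 hy.2 c hc
      calc KK G x y * KK G x c * KK G c y ≤ KK G x y * KK G x c * τ :=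
            mul_le_mul_of_nonneg_left this (mul_nonneg (hK0 _ _) (hK0 _ _))
        _ = _ := by ring
    refine (Finset.sum_le_sum g1).trans ?_
    rw [← Finset.sum_mul]
    have g2 : ∑ y ∈ R \ R', KK G x y ≤ r / κR :=
      (Finset.sum_le_sum_of_subset_of_nonneg Finset.sdiff_subset fun y _ _ => hK0 _ _).trans hsum
    have hq : 0 ≤ r / κR := hs0.trans hsum
    calc (∑ y ∈ R \ R', KK G x y) * (τ * ∑ c ∈ b, KK G x c)
        ≤ (r / κR) * (τ * (r / κR)) :=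
          mul_le_mul g2 (mul_le_mul_of_nonneg_left hsumb hτ) (mul_nonneg hτ hsb0) hq
      _ = _ := by ring
  have hsplit : ∑ y ∈ R, ∑ c ∈ b, KK G x y * KK G x c * KK G c y =
      (∑ y ∈ R \ R', ∑ c ∈ b, KK G x y * KK G x c * KK G c y) +
        ∑ y ∈ R', ∑ c ∈ b, KK G x y * KK G x c * KK G c y := (Finset.sum_sdiff hRR).symm
  rw [hsplit]
  calc _ ≤ τ * (r / κR) ^ 2 + (a * LaR G R x + S0 * (r / κR) ^ 2) := add_le_add far near
    _ = _ := by ring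

end Pool.Agent.AFJ.H67
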